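import Pool.Agent.Run7.h125.TU.Eight1
import Pool.Agent.TH703.Tur.Six

/-!
# `t(9,8) ≤ 6325/32768`
-/

set_option autoImplicit false

open Finset

namespace Run7.h125.TU

open Pool.Agent.TH703.Tur

/-! ### sums over words -/

theorem sumB_app : ∀ (m k : ℕ) (w : List Bool → ℕ),
    sumB (m + k) w = sumB m (fun s => sumB k (fun p => w (s ++ p)))
  | 0, k, w => by simp [sumB]
  | m + 1, k, w => by
      rw [show m + 1 + k = (m + k) + 1 by omega, sumB, sumB]
      congr 1
      funext b
      rw [sumB_app m k]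
      rfl

theorem sumB_const (c : ℕ) : ∀ m : ℕ, sumB m (fun _ => c) = 2 ^ m * c
  | 0 => by simp [sumB]
  | m + 1 => by
      rw [sumB, sm, sumB_const c m, Nat.add_eq, pow_succ]
      ring

theorem sumB_shift : ∀ (m : ℕ) (w : List Bool → ℕ) (t : List Bool), t.length = m →
    sumB m (fun p => w (List.zipWith xor p t)) = sumB m w
  | 0, w, [], _ => by simp [sumB]
  | m + 1, w, [], h => by simp at h
  | 0, w, _ :: _, h => by simp at h
  | m + 1, w, b :: t, h => by
      have h' : t.length = m := by simpa using h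
      have e : ∀ c : Bool, sumB m (fun p => w (List.zipWith xor (c :: p) (b :: t))) =
          sumB m (fun p => w (xor c b :: p)) := by
        intro c
        exact sumB_shift m (fun p => w (xor c b :: p)) t h'
      rw [sumB, sumB, sm, sm, e, e]
      cases b
      · rfl
      · rw [Nat.add_eq, Nat.add_eq, add_comm]
        rfl

/-! ### the pairs of a list of points -/

variable {α : Type}

/-- all pairs of points of a list -/
def csY : List α → List (Sym2 α)
  | [] => []
  | v :: vs => vs.map (fun u => s(v, u)) ++ csY vs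

theorem mem_csY : ∀ (V : List α) (e : Sym2 α), e ∈ csY V → ∀ a ∈ e, a ∈ V
  | [], e, h, _, _ => by simp [csY] at h
  | v :: vs, e, h, a, ha => by
      rw [csY, List.mem_append, List.mem_map] at h
      rcases h with ⟨u, hu, rfl⟩ | h
      · rw [Sym2.mem_iff] at ha
        rcases ha with rfl | rfl
        · simp
        · simp [hu]
      · exact List.mem_cons_of_mem _ (mem_csY vs e h a ha)

theorem nodup_csY : ∀ V : List α, V.Nodup → (csY V).Nodup
  | [], _ => by simp [csY]
  | v :: vs, h => by
      rw [List.nodup_cons] at h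
      rw [csY, List.nodup_append]
      refine ⟨h.2.map (fun a b hab => Sym2.congr_right.1 hab), nodup_csY vs h.2, ?_⟩
      intro a ha b hb hab
      subst hab
      rw [List.mem_map] at ha
      obtain ⟨u, _, rfl⟩ := ha
      exact h.1 (mem_csY vs _ hb v (by simp))

theorem length_csY8 : ∀ V : List α, V.length = 8 → (csY V).length = 28 := by
  intro V hV
  match V, hV with
  | [a, b, c, d, e, f, g, h], _ => rfl

/-- the density of a rule -/
theorem dens_gen [Fintype α] [DecidableEq α] (T : ℕ) (sh : List Bool → List Bool)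
    (hsh : ∀ s, (sh s).length = 15) (V : List α) (hV : V.Nodup) (hl : V.length = 8) :
    32768 * ∑ G : Sym2 α → Bool,
      tn (tb T (List.zipWith xor (((csY V).map G).drop 13) (sh (((csY V).map G).take 13)))) =
    pc 15 T * Fintype.card (Sym2 α → Bool) := by
  have h1 := sumB_eq (csY V) (nodup_csY V hV)
    (fun l => tn (tb T (List.zipWith xor (l.drop 13) (sh (l.take 13)))))
  rw [length_csY8 V hl] at h1
  have h2 : sumB 28 (fun l => tn (tb T (List.zipWith xor (l.drop 13) (sh (l.take 13))))) =
      2 ^ 13 * pc 15 T := by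
    rw [show 28 = 13 + 15 by norm_num, sumB_app, ← sumB_const]
    refine sumB_congr 13 _ _ fun s hs => ?_
    rw [← sumB_pc, ← sumB_shift 15 (fun l => tn (tb T l)) (sh s) (hsh s)]
    refine sumB_congr 15 _ _ fun p hp => ?_
    rw [List.drop_left' hs, List.take_left' hs]
  rw [h2] at h1
  have h3 : (2 : ℕ) ^ 28 = 2 ^ 13 * 32768 := by norm_num
  rw [h3, mul_assoc, mul_assoc] at h1
  exact Nat.eq_of_mul_eq_mul_left (by norm_num) h1

/-- the graph as a function of two points -/
def gg (G : Sym2 α → Bool) (u v : α) : Bool := G s(u, v)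

theorem gg_symm (G : Sym2 α → Bool) (u v : α) : gg G u v = gg G v u := by
  unfold gg
  rw [Sym2.eq_swap]

theorem perm_nodup {x0 y0 : α} {xs ys : List α} (h : ((x0 :: xs) ++ (y0 :: ys)).Nodup) :
    (x0 :: y0 :: (xs ++ ys)).Nodup :=
  ((List.perm_middle (a := y0) (l₁ := xs) (l₂ := ys)).cons x0).nodup_iff.1 h

/-- the normalisation of the digits -/
def sh26 (s : List Bool) : List Bool :=
  [xor (s.getD 2 false) (xor (s.getD 7 false) (s.getD 0 false)), xor (s.getD 3 false) (xor
  (s.getD 7 false) (s.getD 0 false)), xor (s.getD 4 false) (xor (s.getD 7 false) (s.getD 0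
  false)), xor (s.getD 5 false) (xor (s.getD 7 false) (s.getD 0 false)), xor (s.getD 6 false)
  (xor (s.getD 7 false) (s.getD 0 false)), xor (s.getD 8 false) (s.getD 9 false), xor (s.getD 8
  false) (s.getD 10 false), xor (s.getD 8 false) (s.getD 11 false), xor (s.getD 8 false) (s.getD
  12 false), xor (s.getD 9 false) (s.getD 10 false), xor (s.getD 9 false) (s.getD 11 false), xor
  (s.getD 9 false) (s.getD 12 false), xor (s.getD 10 false) (s.getD 11 false), xor (s.getD 10
  false) (s.getD 12 false), xor (s.getD 11 false) (s.getD 12 false)]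

/-- the normalisation of the digits -/
def sh35 (s : List Bool) : List Bool :=
  [xor (s.getD 1 false) (s.getD 2 false), xor (s.getD 3 false) (xor (s.getD 7 false) (s.getD 0
  false)), xor (s.getD 4 false) (xor (s.getD 7 false) (s.getD 0 false)), xor (s.getD 5 false)
  (xor (s.getD 7 false) (s.getD 0 false)), xor (s.getD 6 false) (xor (s.getD 7 false) (s.getD 0
  false)), xor (s.getD 3 false) (xor (s.getD 8 false) (s.getD 0 false)), xor (s.getD 4 false)
  (xor (s.getD 8 false) (s.getD 0 false)), xor (s.getD 5 false) (xor (s.getD 8 false) (s.getD 0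
  false)), xor (s.getD 6 false) (xor (s.getD 8 false) (s.getD 0 false)), xor (s.getD 9 false)
  (s.getD 10 false), xor (s.getD 9 false) (s.getD 11 false), xor (s.getD 9 false) (s.getD 12
  false), xor (s.getD 10 false) (s.getD 11 false), xor (s.getD 10 false) (s.getD 12 false), xor
  (s.getD 11 false) (s.getD 12 false)]

/-- the normalisation of the digits -/
def sh44 (s : List Bool) : List Bool :=
  [xor (s.getD 1 false) (s.getD 2 false), xor (s.getD 1 false) (s.getD 3 false), xor (s.getD 4
  false) (xor (s.getD 7 false) (s.getD 0 false)), xor (s.getD 5 false) (xor (s.getD 7 false)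
  (s.getD 0 false)), xor (s.getD 6 false) (xor (s.getD 7 false) (s.getD 0 false)), xor (s.getD 2
  false) (s.getD 3 false), xor (s.getD 4 false) (xor (s.getD 8 false) (s.getD 0 false)), xor
  (s.getD 5 false) (xor (s.getD 8 false) (s.getD 0 false)), xor (s.getD 6 false) (xor (s.getD 8
  false) (s.getD 0 false)), xor (s.getD 4 false) (xor (s.getD 9 false) (s.getD 0 false)), xor
  (s.getD 5 false) (xor (s.getD 9 false) (s.getD 0 false)), xor (s.getD 6 false) (xor (s.getD 9
  false) (s.getD 0 false)), xor (s.getD 10 false) (s.getD 11 false), xor (s.getD 10 false)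
  (s.getD 12 false), xor (s.getD 11 false) (s.getD 12 false)]

theorem dens26 [Fintype α] [DecidableEq α] (x0 x1 y0 y1 y2 y3 y4 y5 : α)
    (h : ([x0, x1] ++ [y0, y1, y2, y3, y4, y5]).Nodup) :
    32768 * ∑ G : Sym2 α → Bool,
      tn (tb T26 (nb (gg G) [x0, x1] [y0, y1, y2, y3, y4, y5])) = 7744 * Fintype.card (Sym2 α → Bool) := by
  have h1 := dens_gen T26 sh26 (fun _ => rfl) [x0, y0, x1, y1, y2, y3, y4, y5]
    (perm_nodup h) rfl
  rw [pc26] at h1
  exact h1

theorem dens35 [Fintype α] [DecidableEq α] (x0 x1 x2 y0 y1 y2 y3 y4 : α)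
    (h : ([x0, x1, x2] ++ [y0, y1, y2, y3, y4]).Nodup) :
    32768 * ∑ G : Sym2 α → Bool,
      tn (tb T35 (nb (gg G) [x0, x1, x2] [y0, y1, y2, y3, y4])) = 5520 * Fintype.card (Sym2 α → Bool) := by
  have h1 := dens_gen T35 sh35 (fun _ => rfl) [x0, y0, x1, x2, y1, y2, y3, y4]
    (perm_nodup h) rfl
  rw [pc35] at h1
  exact h1

theorem dens44 [Fintype α] [DecidableEq α] (x0 x1 x2 x3 y0 y1 y2 y3 : α)
    (h : ([x0, x1, x2, x3] ++ [y0, y1, y2, y3]).Nodup) :
    32768 * ∑ G : Sym2 α → Bool,
      tn (tb T44 (nb (gg G) [x0, x1, x2, x3] [y0, y1, y2, y3])) = 7168 * Fintype.card (Sym2 α → Bool) := by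
  have h1 := dens_gen T44 sh44 (fun _ => rfl) [x0, y0, x1, x2, x3, y1, y2, y3]
    (perm_nodup h) rfl
  rw [pc44] at h1
  exact h1

/-- the densities (times 32768) -/
def phi8 : ℕ → ℕ
  | 0 => 32768
  | 2 => 7744
  | 3 => 5520
  | 4 => 7168
  | 5 => 5520
  | 6 => 7744
  | 8 => 32768
  | _ => 0

theorem dens8 [Fintype α] [DecidableEq α] (X Y : List α) (h : (X ++ Y).Nodup)
    (hc : X.length + Y.length = 8) :
    32768 * ∑ G : Sym2 α → Bool, tn (tf8 (gg G) X Y) =
      phi8 X.length * Fintype.card (Sym2 α → Bool) := by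
  have hX : X.length = 0 ∨ X.length = 1 ∨ X.length = 2 ∨ X.length = 3 ∨ X.length = 4 ∨
      X.length = 5 ∨ X.length = 6 ∨ X.length = 7 ∨ X.length = 8 := by omega
  rcases hX with hX | hX | hX | hX | hX | hX | hX | hX | hX
  · have hY : Y.length = 8 := by omega
    match X, hX, Y, hY with
    | [], _, [y1, y2, y3, y4, y5, y6, y7, y8], _ =>
      have h1 : ∀ G : Sym2 α → Bool, tn (tf8 (gg G) [] [y1, y2, y3, y4, y5, y6, y7, y8]) = 1 :=
        fun G => rfl
      simp only [h1, Finset.sum_const, smul_eq_mul, mul_one, Finset.card_univ]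
      rfl
  · have hY : Y.length = 7 := by omega
    match X, hX, Y, hY with
    | [x1], _, [y1, y2, y3, y4, y5, y6, y7], _ =>
      have h1 : ∀ G : Sym2 α → Bool, tn (tf8 (gg G) [x1] [y1, y2, y3, y4, y5, y6, y7]) = 0 :=
        fun G => rfl
      simp only [h1, Finset.sum_const, smul_eq_mul, mul_zero]
      show 0 = 0 * _
      rw [zero_mul]
  · have hY : Y.length = 6 := by omega
    match X, hX, Y, hY with
    | [x0, x1], _, [y0, y1, y2, y3, y4, y5], _ => exact dens26 x0 x1 y0 y1 y2 y3 y4 y5 h
  · have hY : Y.length = 5 := by omega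
    match X, hX, Y, hY with
    | [x0, x1, x2], _, [y0, y1, y2, y3, y4], _ => exact dens35 x0 x1 x2 y0 y1 y2 y3 y4 h
  · have hY : Y.length = 4 := by omega
    match X, hX, Y, hY with
    | [x0, x1, x2, x3], _, [y0, y1, y2, y3], _ => exact dens44 x0 x1 x2 x3 y0 y1 y2 y3 h
  · have hY : Y.length = 3 := by omega
    match X, hX, Y, hY with
    | [x0, x1, x2, x3, x4], _, [y0, y1, y2], _ =>
      exact dens35 y0 y1 y2 x0 x1 x2 x3 x4 (List.nodup_append_comm.1 h)
  · have hY : Y.length = 2 := by omega
    match X, hX, Y, hY with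
    | [x0, x1, x2, x3, x4, x5], _, [y0, y1], _ =>
      exact dens26 y0 y1 x0 x1 x2 x3 x4 x5 (List.nodup_append_comm.1 h)
  · have hY : Y.length = 1 := by omega
    match X, hX, Y, hY with
    | [x1, x2, x3, x4, x5, x6, x7], _, [y1], _ =>
      have h1 : ∀ G : Sym2 α → Bool, tn (tf8 (gg G) [x1, x2, x3, x4, x5, x6, x7] [y1]) = 0 :=
        fun G => rfl
      simp only [h1, Finset.sum_const, smul_eq_mul, mul_zero]
      show 0 = 0 * _
      rw [zero_mul]
  · have hY : Y.length = 0 := by omega
    match X, hX, Y, hY with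
    | [x1, x2, x3, x4, x5, x6, x7, x8], _, [], _ =>
      have h1 : ∀ G : Sym2 α → Bool, tn (tf8 (gg G) [x1, x2, x3, x4, x5, x6, x7, x8] []) = 1 :=
        fun G => rfl
      simp only [h1, Finset.sum_const, smul_eq_mul, mul_one, Finset.card_univ]
      rfl

theorem sumB8 : sumB 8 (fun l => phi8 (l.count true)) = 1619200 := by decide +kernel

theorem rnd_eight (n : ℕ) : Pool.Agent.H369R2.TD.Rnd n 8 (6325 / 32768) 0 := by
  classical
  refine ⟨(Fin n → Bool) × (Sym2 (Fin n) → Bool), inferInstance, inferInstance,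
    fun ω => univ.filter fun Z => Z.card = 8 ∧ tf8 (gg ω.2) (srt ω.1 true Z) (srt ω.1 false Z) = true,
    ?_, ?_, ?_⟩
  · intro ω Z hZ
    exact (Finset.mem_filter.1 hZ).2.1
  · intro Z hZ
    have h1 : (univ.filter fun ω : (Fin n → Bool) × (Sym2 (Fin n) → Bool) =>
        Z ∈ univ.filter fun Z : Finset (Fin n) =>
          Z.card = 8 ∧ tf8 (gg ω.2) (srt ω.1 true Z) (srt ω.1 false Z) = true).card =
        ∑ b : Fin n → Bool, ∑ G : Sym2 (Fin n) → Bool,
          tn (tf8 (gg G) (srt b true Z) (srt b false Z)) := by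
      rw [Finset.card_filter, Fintype.sum_prod_type]
      refine Finset.sum_congr rfl fun b _ => Finset.sum_congr rfl fun G _ => ?_
      simp only [Finset.mem_filter, mem_univ, true_and, hZ]
      cases tf8 (gg G) (srt b true Z) (srt b false Z) <;> simp [tn]
    have h2 : ∀ b : Fin n → Bool, 32768 * ∑ G : Sym2 (Fin n) → Bool,
        tn (tf8 (gg G) (srt b true Z) (srt b false Z)) =
        phi8 (((Z.sort (· ≤ ·)).map b).count true) * Fintype.card (Sym2 (Fin n) → Bool) := by
      intro b
      rw [dens8 _ _ (srt_nodup b Z) (by rw [srt_len_add, hZ])]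
      rw [srt_len, count_sort]
    have h3 := sumB_eq (Z.sort (· ≤ ·)) (Finset.sort_nodup _ _) (fun l => phi8 (l.count true))
    rw [Finset.length_sort, hZ, sumB8] at h3
    have h4 : 8388608 * (∑ b : Fin n → Bool, ∑ G : Sym2 (Fin n) → Bool,
        tn (tf8 (gg G) (srt b true Z) (srt b false Z))) =
        1619200 * Fintype.card ((Fin n → Bool) × (Sym2 (Fin n) → Bool)) := by
      rw [Fintype.card_prod, ← mul_assoc, ← h3, show (8388608 : ℕ) = 2 ^ 8 * 32768 by norm_num,
        mul_assoc, Finset.mul_sum, Finset.sum_congr rfl fun b _ => h2 b, ← Finset.sum_mul]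
      ring
    have h5 : (8388608 : ℝ) * ((∑ b : Fin n → Bool, ∑ G : Sym2 (Fin n) → Bool,
        tn (tf8 (gg G) (srt b true Z) (srt b false Z)) : ℕ) : ℝ) =
        1619200 * (Fintype.card ((Fin n → Bool) × (Sym2 (Fin n) → Bool)) : ℝ) := by
      exact_mod_cast h4
    rw [← h1] at h5
    have h6 : (((univ.filter fun ω : (Fin n → Bool) × (Sym2 (Fin n) → Bool) =>
        Z ∈ univ.filter fun Z : Finset (Fin n) =>
          Z.card = 8 ∧ tf8 (gg ω.2) (srt ω.1 true Z) (srt ω.1 false Z) = true).card : ℕ) : ℝ) ≤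
        6325 / 32768 * (Fintype.card ((Fin n → Bool) × (Sym2 (Fin n) → Bool)) : ℝ) := by linarith
    convert h6
  · intro S hS
    rw [zero_mul]
    refine le_of_eq ?_
    rw [Nat.cast_eq_zero, Finset.card_eq_zero, Finset.filter_eq_empty_iff]
    rintro ⟨b, G⟩ _
    rw [not_not]
    obtain ⟨X', Y', hX, hY, hT⟩ := tf8_cover (gg G) (gg_symm G) (srt b true S) (srt b false S)
      (by rw [srt_len_add, hS])
    have hX' : ∀ x ∈ X', x ∈ S ∧ b x = true := fun x hx => (mem_srt _ _ _ _).1 (hX.subset hx)
    have hY' : ∀ x ∈ Y', x ∈ S ∧ b x = false := fun x hx => (mem_srt _ _ _ _).1 (hY.subset hx)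
    have e1 : srt b true (X'.toFinset ∪ Y'.toFinset) = X' := by
      refine srt_sub b true S _ X' hX fun x => ?_
      rw [Finset.mem_union, List.mem_toFinset, List.mem_toFinset]
      constructor
      · rintro ⟨h | h, hb⟩
        · exact h
        · rw [(hY' x h).2] at hb
          exact absurd hb (by simp)
      · intro h
        exact ⟨Or.inl h, (hX' x h).2⟩
    have e2 : srt b false (X'.toFinset ∪ Y'.toFinset) = Y' := by
      refine srt_sub b false S _ Y' hY fun x => ?_
      rw [Finset.mem_union, List.mem_toFinset, List.mem_toFinset]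
      constructor
      · rintro ⟨h | h, hb⟩
        · rw [(hX' x h).2] at hb
          exact absurd hb (by simp)
        · exact h
      · intro h
        exact ⟨Or.inr h, (hY' x h).2⟩
    refine ⟨X'.toFinset ∪ Y'.toFinset, ?_, ?_⟩
    · rw [Finset.mem_filter]
      refine ⟨mem_univ _, ?_, ?_⟩
      · rw [← srt_len_add b, e1, e2]
        exact tf8_len (gg G) X' Y' hT
      · simp only
        rw [e1, e2]
        exact hT
    · intro x hx
      rw [Finset.mem_union, List.mem_toFinset, List.mem_toFinset] at hx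
      rcases hx with h | h
      · exact (hX' x h).1
      · exact (hY' x h).1

/-- `t(9,8) ≤ 6325/32768` -/
theorem tur_eight : Pool.Agent.H369R2.TD.Tur 8 (6325 / 32768) :=
  Pool.Agent.H369R2.TD.OddT5.of_rnd rnd_eight

end Run7.h125.TU
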