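import Pool.Agent.Run7.h125.TU.Asym
import Pool.Agent.Run7.h125.TU.Eight2

/-!
# The asymptotic constant `1.8875`
-/

set_option autoImplicit false

open Finset Filter

namespace Run7.h125.TU

open Pool.Agent.H369R2.TD

/-- `t(r+1, r) ≤ 1.8875 / (r + 1)` for all large `r` -/
theorem tur_18875 : ∀ᶠ r : ℕ in atTop, Tur r ((18875 / 10000) / ((r : ℝ) + 1)) := by
  refine tur_asym (D := 177680 / 100000) tur_eight (by norm_num) (by norm_num) ?_ (by norm_num)
  refine psi_num (S := -93020 / 100) (by norm_num) ?_ (by norm_num)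
  simp only [Finset.sum_range_succ, Finset.sum_range_zero, cc, dl]
  norm_num [Nat.factorial]

end Run7.h125.TU
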