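import Pool.Agent.H369R2.TD.Asy
import Pool.Agent.H369R2.TD.Three
import Pool.Agent.TH485.Tur.Conv
import Pool.Agent.TH485.Uni.Main
import Pool.Agent.TH703.Tur.Six

/-!
# Asymptotic bound for `t(r+1, r)` from a table of small densities

The determinant code of `Pool.Agent.H369R2.TD` is fed with the best known small densities.
-/

set_option autoImplicit false

open Finset Filter

namespace Run7.h125.TU

open Pool.Agent.H369R2.TD Pool.Agent.TH485.Uni

/-- the densities used for the zero sets; the value at `8` and `9` is a parameter -/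
noncomputable def dl (s : ℝ) : ℕ → ℝ
  | 0 => 1
  | 1 => 1
  | 2 => 1 / 2
  | 3 => 4 / 9
  | 4 => 5 / 16
  | 5 => 3043 / 10000
  | 6 => 121 / 512
  | 7 => 121 / 512
  | 8 => s
  | 9 => s
  | 10 => 1788 / 10000
  | 11 => 1788 / 10000
  | 12 => 168 / 1000
  | 13 => 168 / 1000
  | 14 => 164 / 1000
  | 15 => 164 / 1000
  | (m + 16) => (2625 / 1000) / ((m : ℝ) + 17)

theorem dl_nonneg {s : ℝ} (hs : 0 ≤ s) (m : ℕ) : 0 ≤ dl s m := by
  unfold dl
  split
  case h_9 => exact hs
  case h_10 => exact hs
  all_goals positivity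

theorem cN_le : ∀ t : ℕ, t < 63 → 16 ≤ t → g (t + 1) ≤ 262500 := by decide

theorem tur_dl {s : ℝ} (h8 : Tur 8 s) (m : ℕ) : Tur m (dl s m) := by
  have h14 : Tur 14 (164 / 1000) :=
    Pool.Agent.TH485.Tur.tur_of_good Pool.Agent.TH485.Tur.good_14
      (by norm_num [Pool.Agent.TH485.Tur.J6])
  have h5 : Tur 5 (3043 / 10000) :=
    Pool.Agent.TH485.Tur.tur_of_good Pool.Agent.TH485.Tur.d5_good (by norm_num)
  unfold dl
  split
  · exact tur_zero
  · exact tur_zero.succ
  · exact (tur_dn 2).mono (by norm_num [dn, g, cN])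
  · exact tur_three
  · exact (tur_dn 4).mono (by norm_num [dn, g, cN])
  · exact h5
  · exact (Pool.Agent.TH703.Tur.tur_six)
  · exact (Pool.Agent.TH703.Tur.tur_six).succ
  · exact h8
  · exact h8.succ
  · exact (tur_dn 10).mono (by norm_num [dn, g, cN])
  · exact (tur_dn 11).mono (by norm_num [dn, g, cN])
  · exact (tur_dn 12).mono (by norm_num [dn, g, cN])
  · exact (tur_dn 13).mono (by norm_num [dn, g, cN])
  · exact h14
  · exact h14.succ
  · rename_i k
    refine (tur_dn (k + 16)).mono ?_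
    unfold dn
    have h1 : (0 : ℝ) < (k : ℝ) + 17 := by positivity
    have h2 : (g (k + 16 + 1) : ℝ) ≤ 262500 := by
      by_cases hk : k + 16 < 63
      · exact_mod_cast cN_le (k + 16) hk (by omega)
      · have := g_big (j := k + 16 + 1) (by omega)
        rw [this]
        norm_num
    rw [div_le_div_iff₀ (by positivity) h1]
    push_cast
    nlinarith

theorem dl_le {s : ℝ} (hs : s ≤ 2112 / 10000) (m : ℕ) :
    ((m : ℝ) + 1) * dl s m ≤ 2625 / 1000 := by
  unfold dl
  split
  case h_9 => push_cast; nlinarith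
  case h_10 => push_cast; nlinarith
  case h_17 _ k =>
    push_cast
    have : (0 : ℝ) < (k : ℝ) + 17 := by positivity
    rw [show ((k : ℝ) + 15 + 1 + 1) = (k : ℝ) + 17 by ring]
    rw [mul_div_cancel₀ _ this.ne']
  all_goals norm_num

/-- the constants `c j = j * t(j, j-1)` -/
noncomputable def cc (s : ℝ) : ℕ → ℝ
  | 0 => 0
  | (m + 1) => ((m : ℝ) + 1) * dl s m

theorem exp_seven_lt : Real.exp 7 < 1096633159 / 1000000 := by
  have h1 : Real.exp 7 = Real.exp 1 ^ 7 := by
    rw [← Real.exp_nat_mul]; norm_num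
  have h2 := Real.exp_one_lt_d9
  rw [h1]
  calc Real.exp 1 ^ 7 < 2.7182818286 ^ 7 := by gcongr
    _ < _ := by norm_num

theorem lt_exp_seven : 1096633157 / 1000000 < Real.exp 7 := by
  have h1 : Real.exp 7 = Real.exp 1 ^ 7 := by
    rw [← Real.exp_nat_mul]; norm_num
  have h2 := Real.exp_one_gt_d9
  rw [h1]
  calc (1096633157 / 1000000 : ℝ) < 2.7182818283 ^ 7 := by norm_num
    _ < _ := by gcongr

theorem exp_small : Real.exp (1 / 100000) ≤ 1 + 10001 / 1000000000 := by
  have := Real.exp_bound' (x := 1 / 100000) (by norm_num) (by norm_num) (n := 2) (by norm_num)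
  refine this.trans ?_
  simp [Finset.sum_range_succ, Nat.factorial]
  norm_num

/-- a bound for the density of the determinant code, from a bound for the finite sum -/
theorem psi_num {s S D : ℝ} (hS0 : S ≤ 0)
    (hS : ∑ j ∈ range 17, (cc s j - 2625 / 1000) * ((700001 / 100000 : ℝ) ^ j / (j.factorial : ℝ))
      ≤ S)
    (hD : 1000000 / 1096633159 * S + 2625 / 1000 * (1 + 10001 / 1000000000) ≤ D) :
    Real.exp (-7) * Psi 17 (cc s) (2625 / 1000) (700001 / 100000) ≤ D := by
  have hE : (0 : ℝ) < Real.exp (-7) := Real.exp_pos _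
  have hlow : (1000000 : ℝ) / 1096633159 ≤ Real.exp (-7) := by
    rw [Real.exp_neg, ← one_div, div_le_div_iff₀ (by norm_num) (Real.exp_pos _)]
    have := exp_seven_lt
    linarith
  have hx : Real.exp (-7) * Real.exp (700001 / 100000) = Real.exp (1 / 100000) := by
    rw [← Real.exp_add]; norm_num
  rw [Psi, mul_add]
  have h1 : Real.exp (-7) * (2625 / 1000 * Real.exp (700001 / 100000))
      = 2625 / 1000 * Real.exp (1 / 100000) := by
    rw [← hx]; ring
  rw [h1]
  have h2 := exp_small
  have h3 : Real.exp (-7) * ∑ j ∈ range 17, (cc s j - 2625 / 1000) *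
      ((700001 / 100000 : ℝ) ^ j / (j.factorial : ℝ)) ≤ (1000000 : ℝ) / 1096633159 * S := by
    nlinarith
  linarith

/-- the asymptotic bound -/
theorem tur_asym {s D V : ℝ} (h8 : Tur 8 s) (hs0 : 0 ≤ s) (hs : s ≤ 2112 / 10000)
    (hD : Real.exp (-7) * Psi 17 (cc s) (2625 / 1000) (700001 / 100000) ≤ D)
    (hV : D / ((97069 / 100000) * (1 - 91189 / 100000000)) +
      D * (91189 / 100000000) / ((1 - 97069 / 100000) * (1 - 91189 / 100000000)) < V) :
    ∀ᶠ r : ℕ in atTop, Tur r (V / ((r : ℝ) + 1)) := by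
  have hP : Real.exp (-7) ≤ 91189 / 100000000 := by
    rw [Real.exp_neg, ← one_div, div_le_div_iff₀ (Real.exp_pos _) (by norm_num)]
    have := lt_exp_seven
    linarith
  exact asymptotic (δ := dl s) (c := cc s) (J := 17) (K := 2625 / 1000) (tur_dl h8)
    (dl_nonneg hs0) rfl (fun m _ => le_refl _) (dl_le hs) (by norm_num) (y₁ := 7)
    (x₁ := 700001 / 100000) (y₂ := 7) (x₂ := 700001 / 100000) (lam := 97069 / 100000) (D₁ := D)
    (D₂ := D) (P₁ := 91189 / 100000000) (P₂ := 91189 / 100000000)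
    (by norm_num) (by norm_num) (by norm_num) (by norm_num) (by norm_num) (by norm_num)
    hD hD hP (by norm_num) hP (by norm_num) hV

/-- with the known density for eight points -/
theorem tur_1919 : ∀ᶠ r : ℕ in atTop, Tur r ((1919 / 1000) / ((r : ℝ) + 1)) := by
  have h8 : Tur 8 (2112 / 10000) := (tur_dn 8).mono (by norm_num [dn, g, cN])
  refine tur_asym (D := 180625 / 100000) h8 (by norm_num) le_rfl ?_ (by norm_num)
  refine psi_num (S := -89790 / 100) (by norm_num) ?_ (by norm_num)
  simp only [Finset.sum_range_succ, Finset.sum_range_zero, cc, dl]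
  norm_num [Nat.factorial]

end Run7.h125.TU
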