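import Pool.Agent.TH703.Tur.Cod

/-!
# Truth tables as natural numbers

A Boolean function of `m` Boolean variables is stored as a natural number with `2 ^ m` binary
digits.  The linear substitutions `z_q := z_q + z_p` and the exchange of two variables are
carried out on the whole table at once.
-/

set_option autoImplicit false

open Finset

namespace Run7.h125.TU

/-- the number with binary digits `l`, highest digit first -/
def ofM : List Bool → ℕ
  | [] => 0
  | b :: l => (bif b then 2 ^ l.length else 0) + ofM l

theorem ofM_lt : ∀ l : List Bool, ofM l < 2 ^ l.length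
  | [] => by simp [ofM]
  | b :: l => by
      have := ofM_lt l
      rw [ofM, List.length_cons, pow_succ]
      cases b
      · simp only [cond_false]; omega
      · simp only [cond_true]; omega

theorem ofM_inj : ∀ l l' : List Bool, l.length = l'.length → ofM l = ofM l' → l = l'
  | [], [], _, _ => rfl
  | [], _ :: _, h, _ => by simp at h
  | _ :: _, [], h, _ => by simp at h
  | b :: l, b' :: l', h, h2 => by
      have hl : l.length = l'.length := by simpa using h
      have h3 := ofM_lt l
      have h4 := ofM_lt l'
      rw [ofM, ofM, ← hl] at h2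
      rw [← hl] at h4
      have hb : b = b' := by
        cases b <;> cases b' <;> simp at h2 ⊢ <;> omega
      subst hb
      rw [ofM_inj l l' hl (by omega)]

theorem exists_ofM : ∀ (m n : ℕ), n < 2 ^ m → ∃ l : List Bool, l.length = m ∧ ofM l = n
  | 0, n, h => ⟨[], rfl, by simp at h; simp [ofM, h]⟩
  | m + 1, n, h => by
      by_cases hn : n < 2 ^ m
      · obtain ⟨l, hl, h2⟩ := exists_ofM m n hn
        exact ⟨false :: l, by simp [hl], by simp [ofM, h2]⟩
      · obtain ⟨l, hl, h2⟩ := exists_ofM m (n - 2 ^ m) (by rw [pow_succ] at h; omega)
        refine ⟨true :: l, by simp [hl], ?_⟩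
        rw [ofM, h2, hl]
        simp only [cond_true]
        omega

/-- the value of the table `A` at the word `l` -/
def tb (A : ℕ) (l : List Bool) : Bool := A.testBit (ofM l)

theorem testBit_big {A k n : ℕ} (hA : A < 2 ^ k) (hn : k ≤ n) : A.testBit n = false :=
  Nat.testBit_eq_false_of_lt (hA.trans_le (Nat.pow_le_pow_right (by norm_num) hn))

/-- join two tables: the new variable is the first one -/
def jn (k A B : ℕ) : ℕ := A ||| (B <<< 2 ^ k)

theorem jn_lt {k A B : ℕ} (hA : A < 2 ^ (2 ^ k)) (hB : B < 2 ^ (2 ^ k)) :
    jn k A B < 2 ^ (2 ^ (k + 1)) := by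
  unfold jn
  apply Nat.or_lt_two_pow
  · exact hA.trans_le (Nat.pow_le_pow_right (by norm_num) (Nat.pow_le_pow_right (by norm_num)
      (by omega)))
  · rw [Nat.shiftLeft_eq, pow_succ 2 k, mul_two, pow_add]
    exact Nat.mul_lt_mul_of_pos_right hB (by positivity)

theorem tb_jn {k A B : ℕ} (hA : A < 2 ^ (2 ^ k)) (b : Bool) (l : List Bool) (hl : l.length = k) :
    tb (jn k A B) (b :: l) = bif b then tb B l else tb A l := by
  have h1 := ofM_lt l
  rw [hl] at h1
  unfold tb jn
  rw [ofM, Nat.testBit_or, Nat.testBit_shiftLeft, hl]
  cases b
  · simp only [cond_false, zero_add]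
    have : ¬ (2 ^ k ≤ ofM l) := by omega
    simp [this]
  · simp only [cond_true]
    rw [testBit_big hA (by omega)]
    have : 2 ^ k + ofM l - 2 ^ k = ofM l := by omega
    simp [this]

/-! ### masks -/

/-- the table of the words matching the pattern -/
def mk : List (Option Bool) → ℕ
  | [] => 1
  | none :: p => jn p.length (mk p) (mk p)
  | some false :: p => mk p
  | some true :: p => (mk p) <<< 2 ^ p.length

/-- does the word match the pattern -/
def mt : List (Option Bool) → List Bool → Bool
  | none :: p, _ :: l => mt p l
  | some b :: p, c :: l => (b == c) && mt p l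
  | _, _ => true

theorem mk_lt : ∀ p : List (Option Bool), mk p < 2 ^ (2 ^ p.length)
  | [] => by simp [mk]
  | none :: p => by
      rw [mk, List.length_cons]
      exact jn_lt (mk_lt p) (mk_lt p)
  | some false :: p => by
      rw [mk, List.length_cons]
      exact (mk_lt p).trans_le (Nat.pow_le_pow_right (by norm_num)
        (Nat.pow_le_pow_right (by norm_num) (by omega)))
  | some true :: p => by
      have h := jn_lt (k := p.length) (A := 0) (B := mk p) (by positivity) (mk_lt p)
      rw [mk, List.length_cons]
      simpa [jn] using h

theorem tb_mk : ∀ (p : List (Option Bool)) (l : List Bool), l.length = p.length →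
    tb (mk p) l = mt p l
  | [], [], _ => by simp [mk, mt, tb, ofM]
  | [], _ :: _, h => by simp at h
  | _ :: _, [], h => by simp at h
  | none :: p, b :: l, h => by
      have h' : l.length = p.length := by simpa using h
      rw [mk, tb_jn (mk_lt p) b l h', tb_mk p l h', mt]
      cases b <;> rfl
  | some false :: p, b :: l, h => by
      have h' : l.length = p.length := by simpa using h
      have h2 : mk p = jn p.length (mk p) 0 := by simp [jn]
      rw [mk, h2, tb_jn (mk_lt p) b l h', tb_mk p l h', mt]
      cases b <;> simp [tb]
  | some true :: p, b :: l, h => by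
      have h' : l.length = p.length := by simpa using h
      have h2 : (mk p) <<< 2 ^ p.length = jn p.length 0 (mk p) := by simp [jn]
      rw [mk, h2, tb_jn (by positivity) b l h', tb_mk p l h', mt]
      cases b <;> simp [tb]

/-- the pattern of length `m` which fixes two places -/
def pt (m p : ℕ) (bp : Bool) (q : ℕ) (bq : Bool) : List (Option Bool) :=
  ((List.replicate m none).set p (some bp)).set q (some bq)

theorem mt_iff : ∀ (p : List (Option Bool)) (l : List Bool), l.length = p.length →
    (mt p l = true ↔ ∀ (i : ℕ) (b : Bool), p[i]? = some (some b) → l[i]? = some b)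
  | [], [], _ => by simp [mt]
  | [], _ :: _, h => by simp at h
  | _ :: _, [], h => by simp at h
  | none :: p, b :: l, h => by
      have h' : l.length = p.length := by simpa using h
      rw [mt, mt_iff p l h']
      constructor
      · intro H i c hi
        cases i with
        | zero => simp at hi
        | succ i => simpa using H i c (by simpa using hi)
      · intro H i c hi
        simpa using H (i + 1) c (by simpa using hi)
  | some c :: p, b :: l, h => by
      have h' : l.length = p.length := by simpa using h
      rw [mt, Bool.and_eq_true, mt_iff p l h', beq_iff_eq]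
      constructor
      · rintro ⟨hc, H⟩ i d hi
        cases i with
        | zero =>
          simp only [List.getElem?_cons_zero, Option.some.injEq] at hi ⊢
          rw [← hc, hi]
        | succ i => simpa using H i d (by simpa using hi)
      · intro H
        refine ⟨?_, fun i d hi => ?_⟩
        · have := H 0 c (by simp)
          simp only [List.getElem?_cons_zero, Option.some.injEq] at this
          exact this.symm
        · simpa using H (i + 1) d (by simpa using hi)

theorem mt_pt {m p q : ℕ} (hp : p < m) (hq : q < m) (hpq : p ≠ q) (bp bq : Bool) (l : List Bool)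
    (hl : l.length = m) :
    mt (pt m p bp q bq) l = ((l.getD p false == bp) && (l.getD q false == bq)) := by
  have hlen : l.length = (pt m p bp q bq).length := by simp [pt, hl]
  have e : mt (pt m p bp q bq) l = true ↔
      ((l.getD p false == bp) && (l.getD q false == bq)) = true := by
    rw [mt_iff _ _ hlen, Bool.and_eq_true, beq_iff_eq, beq_iff_eq]
    have hp' : p < l.length := by omega
    have hq' : q < l.length := by omega
    have gp : l.getD p false = l[p] := by simp [List.getD, hp']
    have gq : l.getD q false = l[q] := by simp [List.getD, hq']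
    rw [gp, gq]
    constructor
    · intro H
      constructor
      · have := H p bp (by
          unfold pt
          rw [List.getElem?_set_ne (Ne.symm hpq), List.getElem?_set_self (by simpa using hp)])
        rw [List.getElem?_eq_getElem hp'] at this
        exact Option.some.inj this
      · have := H q bq (by
          unfold pt
          rw [List.getElem?_set_self (by simpa using hq)])
        rw [List.getElem?_eq_getElem hq'] at this
        exact Option.some.inj this
    · rintro ⟨h1, h2⟩ i b hi
      unfold pt at hi
      rw [List.getElem?_set] at hi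
      by_cases hiq : q = i
      · subst hiq
        rw [if_pos rfl, if_pos (by simpa using hq)] at hi
        simp only [Option.some.injEq] at hi
        rw [List.getElem?_eq_getElem hq', h2, hi]
      · rw [if_neg hiq, List.getElem?_set] at hi
        by_cases hip : p = i
        · subst hip
          rw [if_pos rfl, if_pos (by simpa using hp)] at hi
          simp only [Option.some.injEq] at hi
          rw [List.getElem?_eq_getElem hp', h1, hi]
        · rw [if_neg hip, List.getElem?_replicate] at hi
          split at hi <;> simp at hi
  rw [Bool.eq_iff_iff]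
  exact e

/-! ### the delta exchange -/

/-- second half of the delta exchange -/
def dsw1 (A D s : ℕ) : ℕ := A ^^^ (D ^^^ (D <<< s))

/-- the delta exchange -/
def dsw (A M s : ℕ) : ℕ := dsw1 A ((A ^^^ (A >>> s)) &&& M) s

theorem dsw_testBit (A M s n : ℕ) : (dsw A M s).testBit n =
    (A.testBit n ^^ (((A.testBit n ^^ A.testBit (s + n)) && M.testBit n) ^^
      (decide (n ≥ s) && ((A.testBit (n - s) ^^ A.testBit (s + (n - s))) && M.testBit (n - s))))) := by
  simp only [dsw, dsw1, Nat.testBit_xor, Nat.testBit_and, Nat.testBit_shiftLeft,
    Nat.testBit_shiftRight]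

theorem dsw_spec {m A M s : ℕ} {P : List Bool → Bool} {σ : List Bool → List Bool}
    (hM : M < 2 ^ (2 ^ m)) (hP : ∀ l, l.length = m → tb M l = P l)
    (hσl : ∀ l, (σ l).length = l.length) (hσσ : ∀ l, l.length = m → σ (σ l) = l)
    (h1 : ∀ l, l.length = m → P l = true → ofM (σ l) = ofM l + s)
    (h2 : ∀ l, l.length = m → P l = true → P (σ l) = false)
    (h3 : ∀ l, l.length = m → P l = false → P (σ l) = false → σ l = l) (l : List Bool)
    (hl : l.length = m) : tb (dsw A M s) l = tb A (σ l) := by
  have key : ofM l ≥ s → M.testBit (ofM l - s) = true → P (σ l) = true := by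
    intro hs hm
    have hlt : ofM l - s < 2 ^ m := by
      by_contra hc
      rw [testBit_big hM (by omega)] at hm
      exact absurd hm (by simp)
    obtain ⟨l', hl', h'⟩ := exists_ofM m _ hlt
    have hPl' : P l' = true := by
      rw [← hP l' hl', tb, h', hm]
    have h4 := h1 l' hl' hPl'
    have h5 : σ l' = l := ofM_inj _ _ (by rw [hσl, hl', hl]) (by omega)
    rw [← h5, hσσ l' hl']
    exact hPl'
  have hMl := hP l hl
  unfold tb at hMl ⊢
  rw [dsw_testBit, hMl]
  cases hPl : P l
  · cases hPs : P (σ l)
    · -- fixed
      rw [h3 l hl hPl hPs]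
      by_cases hs : ofM l ≥ s
      · have : M.testBit (ofM l - s) = false := by
          by_contra hc
          rw [Bool.not_eq_false] at hc
          rw [key hs hc] at hPs
          exact absurd hPs (by simp)
        rw [this]
        simp
      · simp [hs]
    · have h4 := h1 (σ l) (by rw [hσl, hl]) hPs
      rw [hσσ l hl] at h4
      have hs : ofM l ≥ s := by omega
      have h5 : ofM l - s = ofM (σ l) := by omega
      have h6 := hP (σ l) (by rw [hσl, hl])
      unfold tb at h6
      rw [h5, h6, hPs, show s + ofM (σ l) = ofM l by omega]
      simp only [hs, decide_true, Bool.and_false, Bool.and_true, Bool.true_and, Bool.false_xor]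
      cases A.testBit (ofM l) <;> cases A.testBit (ofM (σ l)) <;> rfl
  · have h4 := h1 l hl hPl
    have h7 := h2 l hl hPl
    have h8 : (decide (ofM l ≥ s) && ((A.testBit (ofM l - s) ^^ A.testBit (s + (ofM l - s))) &&
        M.testBit (ofM l - s))) = false := by
      by_cases hs : ofM l ≥ s
      · have : M.testBit (ofM l - s) = false := by
          by_contra hc
          rw [Bool.not_eq_false] at hc
          rw [key hs hc] at h7
          exact absurd h7 (by simp)
        rw [this]
        simp
      · simp [hs]
    rw [h8, show s + ofM l = ofM (σ l) by omega]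
    simp

/-! ### the two elementary operations -/

theorem ofM_set_true : ∀ (l : List Bool) (q : ℕ), q < l.length → l.getD q false = false →
    ofM (l.set q true) = ofM l + 2 ^ (l.length - 1 - q)
  | [], q, h, _ => by simp at h
  | b :: l, 0, _, h => by
      simp only [List.getD_cons_zero] at h
      subst h
      simp only [List.set_cons_zero, ofM, cond_true, cond_false, List.length_cons]
      rw [show l.length + 1 - 1 - 0 = l.length by omega]
      omega
  | b :: l, q + 1, hq, h => by
      simp only [List.getD_cons_succ] at h
      have hq' : q < l.length := by simpa using hq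
      simp only [List.set_cons_succ, ofM, List.length_set, List.length_cons]
      rw [ofM_set_true l q hq' h, show l.length + 1 - 1 - (q + 1) = l.length - 1 - q by omega]
      omega

theorem ofM_set_false : ∀ (l : List Bool) (q : ℕ), q < l.length → l.getD q false = true →
    ofM (l.set q false) + 2 ^ (l.length - 1 - q) = ofM l
  | [], q, h, _ => by simp at h
  | b :: l, 0, _, h => by
      simp only [List.getD_cons_zero] at h
      subst h
      simp only [List.set_cons_zero, ofM, cond_true, cond_false, List.length_cons]
      rw [show l.length + 1 - 1 - 0 = l.length by omega]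
      omega
  | b :: l, q + 1, hq, h => by
      simp only [List.getD_cons_succ] at h
      have hq' : q < l.length := by simpa using hq
      simp only [List.set_cons_succ, ofM, List.length_set, List.length_cons]
      have := ofM_set_false l q hq' h
      rw [show l.length + 1 - 1 - (q + 1) = l.length - 1 - q by omega]
      omega

/-- the operations on words: `(false, p, q)` adds the digit `p` to the digit `q`, `(true, p, q)`
exchanges the two digits -/
def opL : Bool × ℕ × ℕ → List Bool → List Bool
  | (false, p, q), l => l.set q (xor (l.getD q false) (l.getD p false))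
  | (true, p, q), l => (l.set p (l.getD q false)).set q (l.getD p false)

/-- the operations on tables -/
def opA (m : ℕ) : Bool × ℕ × ℕ → ℕ → ℕ
  | (false, p, q), A => dsw A (mk (pt m p true q false)) (2 ^ (m - 1 - q))
  | (true, p, q), A => dsw A (mk (pt m p false q true)) (2 ^ (m - 1 - p) - 2 ^ (m - 1 - q))

/-- the operation makes sense -/
def okop (m : ℕ) : Bool × ℕ × ℕ → Bool
  | (false, p, q) => Nat.blt p m && Nat.blt q m && !(Nat.beq p q)
  | (true, p, q) => Nat.blt p q && Nat.blt q m

theorem getD_set_self (l : List Bool) (p : ℕ) (b : Bool) (h : p < l.length) :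
    (l.set p b).getD p false = b := by
  simp [List.getD, h]

theorem getD_set_ne (l : List Bool) {p q : ℕ} (b : Bool) (h : p ≠ q) :
    (l.set p b).getD q false = l.getD q false := by
  simp [List.getD, List.getElem?_set_ne h]

theorem set_getD (l : List Bool) (p : ℕ) : l.set p (l.getD p false) = l := by
  by_cases h : p < l.length
  · simp [List.getD, h]
  · rw [List.set_eq_of_length_le (by omega)]

theorem opL_length (o : Bool × ℕ × ℕ) (l : List Bool) : (opL o l).length = l.length := by
  obtain ⟨b, p, q⟩ := o
  cases b <;> simp [opL]

theorem pt_length (m p : ℕ) (bp : Bool) (q : ℕ) (bq : Bool) : (pt m p bp q bq).length = m := by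
  simp [pt]

theorem tb_opA {m : ℕ} (o : Bool × ℕ × ℕ) (ho : okop m o = true) (A : ℕ) (l : List Bool)
    (hl : l.length = m) : tb (opA m o A) l = tb A (opL o l) := by
  obtain ⟨b, p, q⟩ := o
  cases b
  · simp only [okop, Bool.and_eq_true, Bool.not_eq_true', Nat.blt_eq] at ho
    obtain ⟨⟨hp, hq⟩, hpq⟩ := ho
    have hpq : p ≠ q := by
      intro h
      rw [h] at hpq
      simp at hpq
    unfold opA
    refine dsw_spec (P := fun l => (l.getD p false == true) && (l.getD q false == false))
      (σ := opL (false, p, q)) ?_ ?_ (opL_length _) ?_ ?_ ?_ ?_ l hl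
    · have := mk_lt (pt m p true q false)
      rwa [pt_length] at this
    · intro l hl
      rw [tb_mk _ _ (by rw [pt_length, hl]), mt_pt hp hq hpq _ _ _ hl]
    · intro l hl
      simp only [opL]
      rw [getD_set_self _ _ _ (by omega), getD_set_ne _ _ hpq.symm, List.set_set]
      have : ((l.getD q false ^^ l.getD p false) ^^ l.getD p false) = l.getD q false := by simp
      rw [this, set_getD]
    · intro l hl h
      simp only [Bool.and_eq_true, beq_iff_eq] at h
      simp only [opL]
      rw [h.1, h.2]
      have := ofM_set_true l q (by omega) h.2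
      rw [hl] at this
      simpa using this
    · intro l hl h
      simp only [Bool.and_eq_true, beq_iff_eq] at h
      simp only [opL]
      rw [getD_set_self _ _ _ (by omega), h.1, h.2]
      simp
    · intro l hl h h'
      simp only [opL] at h' ⊢
      rw [getD_set_self _ _ _ (by omega), getD_set_ne _ _ hpq.symm] at h'
      have h4 : l.getD p false = false := by
        revert h h'
        cases l.getD p false <;> cases l.getD q false <;> simp
      rw [h4, Bool.xor_false, set_getD]
  · simp only [okop, Bool.and_eq_true, Nat.blt_eq] at ho
    obtain ⟨hpq', hq⟩ := ho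
    have hpq : p ≠ q := by omega
    have hp : p < m := by omega
    unfold opA
    refine dsw_spec (P := fun l => (l.getD p false == false) && (l.getD q false == true))
      (σ := opL (true, p, q)) ?_ ?_ (opL_length _) ?_ ?_ ?_ ?_ l hl
    · have := mk_lt (pt m p false q true)
      rwa [pt_length] at this
    · intro l hl
      rw [tb_mk _ _ (by rw [pt_length, hl]), mt_pt hp hq hpq _ _ _ hl]
    · intro l hl
      simp only [opL]
      rw [getD_set_self _ _ _ (by simp; omega), getD_set_ne _ _ hpq.symm,
        getD_set_self _ _ _ (by omega), List.set_comm (l := l.set p _) _ _ hpq.symm, List.set_set,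
        List.set_set, set_getD, set_getD]
    · intro l hl h
      simp only [Bool.and_eq_true, beq_iff_eq] at h
      simp only [opL]
      rw [h.1, h.2]
      have e1 := ofM_set_true l p (by omega) h.1
      have e2 := ofM_set_false (l.set p true) q (by simp; omega) (by
        rw [getD_set_ne _ _ hpq, h.2])
      rw [List.length_set, hl] at e2
      rw [hl] at e1
      have e3 : 2 ^ (m - 1 - q) ≤ 2 ^ (m - 1 - p) :=
        Nat.pow_le_pow_right (by norm_num) (by omega)
      omega
    · intro l hl h
      simp only [Bool.and_eq_true, beq_iff_eq] at h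
      simp only [opL]
      rw [getD_set_self _ _ _ (by simp; omega), getD_set_ne _ _ hpq.symm,
        getD_set_self _ _ _ (by omega), h.1, h.2]
      simp
    · intro l hl h h'
      simp only [opL] at h' ⊢
      rw [getD_set_self _ _ _ (by simp; omega), getD_set_ne _ _ hpq.symm,
        getD_set_self _ _ _ (by omega)] at h'
      have h4 : l.getD p false = l.getD q false := by
        revert h h'
        cases l.getD p false <;> cases l.getD q false <;> simp
      rw [h4, ← h4, set_getD, h4, set_getD]

/-- a list of operations on words -/
def opsL : List (Bool × ℕ × ℕ) → List Bool → List Bool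
  | [], l => l
  | o :: os, l => opsL os (opL o l)

/-- a list of operations on tables -/
def opsA (m : ℕ) : List (Bool × ℕ × ℕ) → ℕ → ℕ
  | [], A => A
  | o :: os, A => opA m o (opsA m os A)

theorem tb_opsA {m : ℕ} : ∀ (os : List (Bool × ℕ × ℕ)), os.all (okop m) = true → ∀ (A : ℕ)
    (l : List Bool), l.length = m → tb (opsA m os A) l = tb A (opsL os l)
  | [], _, _, _, _ => rfl
  | o :: os, h, A, l, hl => by
      rw [List.all_cons, Bool.and_eq_true] at h
      rw [opsA, tb_opA o h.1 _ l hl, tb_opsA os h.2 A _ (by rw [opL_length, hl]), opsL]

/-! ### variables which are not used -/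

/-- add `k` variables in front which are not used -/
def ext (m : ℕ) : ℕ → ℕ → ℕ
  | 0, A => A
  | k + 1, A => jn (m + k) (ext m k A) (ext m k A)

theorem ext_lt {m A : ℕ} (hA : A < 2 ^ (2 ^ m)) : ∀ k, ext m k A < 2 ^ (2 ^ (m + k))
  | 0 => hA
  | k + 1 => jn_lt (ext_lt hA k) (ext_lt hA k)

theorem tb_ext {m A : ℕ} (hA : A < 2 ^ (2 ^ m)) : ∀ (k : ℕ) (l : List Bool), l.length = m + k →
    tb (ext m k A) l = tb A (l.drop k)
  | 0, l, _ => rfl
  | k + 1, [], h => by simp at h
  | k + 1, b :: l, h => by
      have h' : l.length = m + k := by simpa [← add_assoc] using h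
      rw [ext, tb_jn (ext_lt hA k) b l h', tb_ext hA k l h', List.drop_succ_cons]
      cases b <;> rfl

/-- the words for which one of the rules holds -/
def cov (m k : ℕ) : List (List (Bool × ℕ × ℕ) × ℕ) → ℕ
  | [] => 0
  | r :: rs => opsA (m + k) r.1 (ext m k r.2) ||| cov m k rs

/-- the check that every word satisfies one of the rules -/
def chk (m k : ℕ) (rs : List (List (Bool × ℕ × ℕ) × ℕ)) : Bool :=
  Nat.beq (cov m k rs) (2 ^ (2 ^ (m + k)) - 1)

theorem cov_spec {m k : ℕ} (l : List Bool) (hl : l.length = m + k) :
    ∀ rs : List (List (Bool × ℕ × ℕ) × ℕ), (∀ r ∈ rs, r.1.all (okop (m + k)) = true) →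
      (∀ r ∈ rs, r.2 < 2 ^ (2 ^ m)) → tb (cov m k rs) l = true →
      ∃ r ∈ rs, tb r.2 ((opsL r.1 l).drop k) = true
  | [], _, _, h => by simp [cov, tb] at h
  | r :: rs, h1, h2, h => by
      have e : tb (cov m k (r :: rs)) l =
          (tb (opsA (m + k) r.1 (ext m k r.2)) l || tb (cov m k rs) l) := by
        simp [cov, tb]
      rw [e, Bool.or_eq_true] at h
      rcases h with h | h
      · rw [tb_opsA _ (h1 r (by simp)) _ l hl] at h
        have hlen : ∀ (os : List (Bool × ℕ × ℕ)) (l : List Bool),
            (opsL os l).length = l.length := by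
          intro os
          induction os with
          | nil => intro l; rfl
          | cons o os ih => intro l; rw [opsL, ih, opL_length]
        rw [tb_ext (h2 r (by simp)) _ _ (by rw [hlen, hl])] at h
        exact ⟨r, by simp, h⟩
      · obtain ⟨r', hr', h'⟩ := cov_spec l hl rs (fun r hr => h1 r (by simp [hr]))
          (fun r hr => h2 r (by simp [hr])) h
        exact ⟨r', by simp [hr'], h'⟩

theorem chk_spec {m k : ℕ} {rs : List (List (Bool × ℕ × ℕ) × ℕ)} (h : chk m k rs = true)
    (h1 : ∀ r ∈ rs, r.1.all (okop (m + k)) = true) (h2 : ∀ r ∈ rs, r.2 < 2 ^ (2 ^ m))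
    (l : List Bool) (hl : l.length = m + k) : ∃ r ∈ rs, tb r.2 ((opsL r.1 l).drop k) = true := by
  refine cov_spec l hl rs h1 h2 ?_
  have h3 : cov m k rs = 2 ^ (2 ^ (m + k)) - 1 := Nat.eq_of_beq_eq_true h
  rw [tb, h3, Nat.testBit_two_pow_sub_one]
  have := ofM_lt l
  rw [hl] at this
  simpa using this

/-! ### words of linear forms -/

/-- the value of a linear form, given as a list of places -/
def ev (l : List Bool) : List ℕ → Bool
  | [] => false
  | a :: r => r.foldl (fun c b => xor c (l.getD b false)) (l.getD a false)

theorem foldl_ev (l : List Bool) : ∀ (r : List ℕ) (c d : Bool),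
    r.foldl (fun c b => xor c (l.getD b false)) (xor c d) =
      xor c (r.foldl (fun c b => xor c (l.getD b false)) d)
  | [], c, d => rfl
  | b :: r, c, d => by
      rw [List.foldl_cons, List.foldl_cons, Bool.xor_assoc, foldl_ev l r]

theorem ev_append (l : List Bool) (f f' : List ℕ) : ev l (f ++ f') = xor (ev l f) (ev l f') := by
  cases f with
  | nil => simp [ev]
  | cons a r =>
    rw [List.cons_append, ev, ev, List.foldl_append]
    cases f' with
    | nil => simp [ev]
    | cons b r' =>
      rw [ev, List.foldl_cons, foldl_ev]

/-- the operations on words of linear forms -/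
def opF : Bool × ℕ × ℕ → List (List ℕ) → List (List ℕ)
  | (false, p, q), F => F.set q (F.getD q [] ++ F.getD p [])
  | (true, p, q), F => (F.set p (F.getD q [])).set q (F.getD p [])

/-- a list of operations on words of linear forms -/
def opsF : List (Bool × ℕ × ℕ) → List (List ℕ) → List (List ℕ)
  | [], F => F
  | o :: os, F => opsF os (opF o F)

theorem getD_ev (l : List Bool) (F : List (List ℕ)) (q : ℕ) :
    (F.map (ev l)).getD q false = ev l (F.getD q []) := by
  rw [show false = ev l [] from rfl, List.getD_map]

theorem opL_ev (l : List Bool) (o : Bool × ℕ × ℕ) (F : List (List ℕ)) :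
    opL o (F.map (ev l)) = (opF o F).map (ev l) := by
  obtain ⟨b, p, q⟩ := o
  cases b
  · simp only [opL, opF, getD_ev, List.map_set, ev_append]
  · simp only [opL, opF, getD_ev, List.map_set]

theorem opsL_ev (l : List Bool) : ∀ (os : List (Bool × ℕ × ℕ)) (F : List (List ℕ)),
    opsL os (F.map (ev l)) = (opsF os F).map (ev l)
  | [], F => rfl
  | o :: os, F => by rw [opsL, opsF, opL_ev, opsL_ev l os]

/-- the coordinate forms -/
def idF (m : ℕ) : List (List ℕ) := (List.range m).map fun i => [i]

theorem idF_ev (l : List Bool) : (idF l.length).map (ev l) = l := by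
  refine List.ext_getElem (by simp [idF]) fun i h1 h2 => ?_
  simp [idF, ev, h2]

theorem opsL_idF {m k : ℕ} {os : List (Bool × ℕ × ℕ)} {F : List (List ℕ)}
    (h : (opsF os (idF m)).drop k = F) (l : List Bool) (hl : l.length = m) :
    (opsL os l).drop k = F.map (ev l) := by
  subst hl
  conv_lhs => rw [← idF_ev l]
  rw [opsL_ev, ← List.map_drop, h]

/-! ### counting -/

/-- the number of words of length `m` in the table -/
def pc : ℕ → ℕ → ℕ
  | 0, A => A % 2
  | m + 1, A => pc m (A % 2 ^ (2 ^ m)) + pc m (A >>> 2 ^ m)

open Pool.Agent.TH703.Tur in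
theorem sumB_pc : ∀ (m A : ℕ), sumB m (fun l => tn (tb A l)) = pc m A
  | 0, A => by
      rw [sumB, pc, tb, ofM, Nat.testBit_zero]
      rcases Nat.mod_two_eq_zero_or_one A with h | h <;> simp [h, tn]
  | m + 1, A => by
      rw [sumB, sm, Nat.add_eq, pc, ← sumB_pc m, ← sumB_pc m, add_comm]
      congr 1
      · refine sumB_congr m _ _ fun l hl => ?_
        have h1 := ofM_lt l
        rw [hl] at h1
        simp only [tb, ofM, cond_false, zero_add]
        rw [Nat.testBit_mod_two_pow]
        simp [h1]
      · refine sumB_congr m _ _ fun l hl => ?_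
        simp only [tb, ofM, cond_true, hl]
        rw [Nat.testBit_shiftRight]

end Run7.h125.TU
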