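import Pool.Agent.Run7.h125.TU.Eight0

/-!
# The code for eight points: the rule and the covering property
-/

set_option autoImplicit false

namespace Run7.h125.TU

variable {α : Type}

/-- the digit of two points of one class, normalised at the point `b` of this class -/
def zz (g : α → α → Bool) (b u v : α) : Bool := xor (g u v) (xor (g b u) (g b v))

/-- the digit of two points of different classes, normalised at the points `a`, `b` -/
def zc (g : α → α → Bool) (a b u v : α) : Bool := xor (g u v) (xor (g a v) (xor (g b u) (g a b)))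

/-- the digits inside the second class -/
def prY (g : α → α → Bool) (y0 : α) : List α → List Bool
  | [] => []
  | y :: ys => ys.map (zz g y0 y) ++ prY g y0 ys

/-- the other digits -/
def nbX (g : α → α → Bool) (x0 y0 : α) (ys : List α) : List α → List Bool
  | [] => prY g y0 ys
  | x :: xs => xs.map (zz g x0 x) ++ (ys.map (zc g x0 y0 x) ++ nbX g x0 y0 ys xs)

/-- the normalised digits -/
def nb (g : α → α → Bool) : List α → List α → List Bool
  | x0 :: xs, y0 :: ys => nbX g x0 y0 ys xs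
  | _, _ => []

theorem zz_base (g : α → α → Bool) (x0 x1 u v : α) :
    zz g x1 u v = xor (xor (zz g x0 u v) (zz g x0 x1 u)) (zz g x0 x1 v) := by
  unfold zz
  cases g u v <;> cases g x0 u <;> cases g x0 v <;> cases g x1 u <;> cases g x1 v <;>
    cases g x0 x1 <;> rfl

theorem zc_base (g : α → α → Bool) (hg : ∀ u v, g u v = g v u) (x0 x1 y0 u v : α) :
    zc g x1 y0 u v = xor (zc g x0 y0 u v) (zc g x0 y0 x1 v) := by
  unfold zc
  rw [hg x1 y0]
  cases g u v <;> cases g x0 v <;> cases g y0 u <;> cases g x1 v <;> cases g y0 x1 <;>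
    cases g x0 y0 <;> rfl

theorem zc_base' (g : α → α → Bool) (hg : ∀ u v, g u v = g v u) (x0 y0 y1 u v : α) :
    zc g x0 y1 u v = xor (zc g x0 y0 u v) (zc g x0 y0 u y1) := by
  unfold zc
  rw [hg y1 u]
  cases g u v <;> cases g x0 v <;> cases g y0 u <;> cases g u y1 <;> cases g x0 y1 <;>
    cases g x0 y0 <;> rfl

theorem zc_swap (g : α → α → Bool) (hg : ∀ u v, g u v = g v u) (x0 y0 u v : α) :
    zc g y0 x0 v u = zc g x0 y0 u v := by
  unfold zc
  rw [hg v u, hg y0 x0]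
  cases g u v <;> cases g x0 v <;> cases g y0 u <;> cases g x0 y0 <;> rfl

theorem e27_0 (g : α → α → Bool) (hg : ∀ u v, g u v = g v u) (x0 x1 y0 y1 y2 y3 y4 y5 y6 : α) :
    f27_0.map (ev (nb g [x0, x1]
      [y0, y1, y2, y3, y4, y5, y6])) =
      nb g [x0, x1] [y1, y2, y3, y4, y5, y6] := by
  simp only [nb, nbX, prY, List.map_cons, List.map_nil, List.cons_append, List.nil_append,
    zz_base g y0 y1, zc_base' g hg x0 y0 y1]
  rfl

theorem e27_1 (g : α → α → Bool) (x0 x1 y0 y1 y2 y3 y4 y5 y6 : α) :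
    f27_1.map (ev (nb g [x0, x1]
      [y0, y1, y2, y3, y4, y5, y6])) =
      nb g [x0, x1] [y0, y2, y3, y4, y5, y6] := by
  rfl

theorem e27_2 (g : α → α → Bool) (x0 x1 y0 y1 y2 y3 y4 y5 y6 : α) :
    f27_2.map (ev (nb g [x0, x1]
      [y0, y1, y2, y3, y4, y5, y6])) =
      nb g [x0, x1] [y0, y1, y3, y4, y5, y6] := by
  rfl

theorem e27_3 (g : α → α → Bool) (x0 x1 y0 y1 y2 y3 y4 y5 y6 : α) :
    f27_3.map (ev (nb g [x0, x1]
      [y0, y1, y2, y3, y4, y5, y6])) =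
      nb g [x0, x1] [y0, y1, y2, y4, y5, y6] := by
  rfl

theorem e27_4 (g : α → α → Bool) (x0 x1 y0 y1 y2 y3 y4 y5 y6 : α) :
    f27_4.map (ev (nb g [x0, x1]
      [y0, y1, y2, y3, y4, y5, y6])) =
      nb g [x0, x1] [y0, y1, y2, y3, y5, y6] := by
  rfl

theorem e27_5 (g : α → α → Bool) (x0 x1 y0 y1 y2 y3 y4 y5 y6 : α) :
    f27_5.map (ev (nb g [x0, x1]
      [y0, y1, y2, y3, y4, y5, y6])) =
      nb g [x0, x1] [y0, y1, y2, y3, y4, y6] := by
  rfl

theorem e27_6 (g : α → α → Bool) (x0 x1 y0 y1 y2 y3 y4 y5 y6 : α) :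
    f27_6.map (ev (nb g [x0, x1]
      [y0, y1, y2, y3, y4, y5, y6])) =
      nb g [x0, x1] [y0, y1, y2, y3, y4, y5] := by
  rfl

theorem e36_0 (g : α → α → Bool) (hg : ∀ u v, g u v = g v u) (x0 x1 x2 y0 y1 y2 y3 y4 y5 : α) :
    f36_0.map (ev (nb g [x0, x1, x2]
      [y0, y1, y2, y3, y4, y5])) =
      nb g [x1, x2] [y0, y1, y2, y3, y4, y5] := by
  simp only [nb, nbX, prY, List.map_cons, List.map_nil, List.cons_append, List.nil_append,
    zc_base g hg x0 x1]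
  rfl

theorem e36_1 (g : α → α → Bool) (x0 x1 x2 y0 y1 y2 y3 y4 y5 : α) :
    f36_1.map (ev (nb g [x0, x1, x2]
      [y0, y1, y2, y3, y4, y5])) =
      nb g [x0, x2] [y0, y1, y2, y3, y4, y5] := by
  rfl

theorem e36_2 (g : α → α → Bool) (x0 x1 x2 y0 y1 y2 y3 y4 y5 : α) :
    f36_2.map (ev (nb g [x0, x1, x2]
      [y0, y1, y2, y3, y4, y5])) =
      nb g [x0, x1] [y0, y1, y2, y3, y4, y5] := by
  rfl

theorem e36_3 (g : α → α → Bool) (hg : ∀ u v, g u v = g v u) (x0 x1 x2 y0 y1 y2 y3 y4 y5 : α) :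
    f36_3.map (ev (nb g [x0, x1, x2]
      [y0, y1, y2, y3, y4, y5])) =
      nb g [x0, x1, x2] [y1, y2, y3, y4, y5] := by
  simp only [nb, nbX, prY, List.map_cons, List.map_nil, List.cons_append, List.nil_append,
    zz_base g y0 y1, zc_base' g hg x0 y0 y1]
  rfl

theorem e36_4 (g : α → α → Bool) (x0 x1 x2 y0 y1 y2 y3 y4 y5 : α) :
    f36_4.map (ev (nb g [x0, x1, x2]
      [y0, y1, y2, y3, y4, y5])) =
      nb g [x0, x1, x2] [y0, y2, y3, y4, y5] := by
  rfl

theorem e36_5 (g : α → α → Bool) (x0 x1 x2 y0 y1 y2 y3 y4 y5 : α) :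
    f36_5.map (ev (nb g [x0, x1, x2]
      [y0, y1, y2, y3, y4, y5])) =
      nb g [x0, x1, x2] [y0, y1, y3, y4, y5] := by
  rfl

theorem e36_6 (g : α → α → Bool) (x0 x1 x2 y0 y1 y2 y3 y4 y5 : α) :
    f36_6.map (ev (nb g [x0, x1, x2]
      [y0, y1, y2, y3, y4, y5])) =
      nb g [x0, x1, x2] [y0, y1, y2, y4, y5] := by
  rfl

theorem e36_7 (g : α → α → Bool) (x0 x1 x2 y0 y1 y2 y3 y4 y5 : α) :
    f36_7.map (ev (nb g [x0, x1, x2]
      [y0, y1, y2, y3, y4, y5])) =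
      nb g [x0, x1, x2] [y0, y1, y2, y3, y5] := by
  rfl

theorem e36_8 (g : α → α → Bool) (x0 x1 x2 y0 y1 y2 y3 y4 y5 : α) :
    f36_8.map (ev (nb g [x0, x1, x2]
      [y0, y1, y2, y3, y4, y5])) =
      nb g [x0, x1, x2] [y0, y1, y2, y3, y4] := by
  rfl

theorem e45_0 (g : α → α → Bool) (hg : ∀ u v, g u v = g v u) (x0 x1 x2 x3 y0 y1 y2 y3 y4 : α) :
    f45_0.map (ev (nb g [x0, x1, x2, x3]
      [y0, y1, y2, y3, y4])) =
      nb g [x1, x2, x3] [y0, y1, y2, y3, y4] := by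
  simp only [nb, nbX, prY, List.map_cons, List.map_nil, List.cons_append, List.nil_append,
    zz_base g x0 x1, zc_base g hg x0 x1]
  rfl

theorem e45_1 (g : α → α → Bool) (x0 x1 x2 x3 y0 y1 y2 y3 y4 : α) :
    f45_1.map (ev (nb g [x0, x1, x2, x3]
      [y0, y1, y2, y3, y4])) =
      nb g [x0, x2, x3] [y0, y1, y2, y3, y4] := by
  rfl

theorem e45_2 (g : α → α → Bool) (x0 x1 x2 x3 y0 y1 y2 y3 y4 : α) :
    f45_2.map (ev (nb g [x0, x1, x2, x3]
      [y0, y1, y2, y3, y4])) =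
      nb g [x0, x1, x3] [y0, y1, y2, y3, y4] := by
  rfl

theorem e45_3 (g : α → α → Bool) (x0 x1 x2 x3 y0 y1 y2 y3 y4 : α) :
    f45_3.map (ev (nb g [x0, x1, x2, x3]
      [y0, y1, y2, y3, y4])) =
      nb g [x0, x1, x2] [y0, y1, y2, y3, y4] := by
  rfl

theorem e45_4 (g : α → α → Bool) (hg : ∀ u v, g u v = g v u) (x0 x1 x2 x3 y0 y1 y2 y3 y4 : α) :
    f45_4.map (ev (nb g [x0, x1, x2, x3]
      [y0, y1, y2, y3, y4])) =
      nb g [x0, x1, x2, x3] [y1, y2, y3, y4] := by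
  simp only [nb, nbX, prY, List.map_cons, List.map_nil, List.cons_append, List.nil_append,
    zz_base g y0 y1, zc_base' g hg x0 y0 y1]
  rfl

theorem e45_5 (g : α → α → Bool) (x0 x1 x2 x3 y0 y1 y2 y3 y4 : α) :
    f45_5.map (ev (nb g [x0, x1, x2, x3]
      [y0, y1, y2, y3, y4])) =
      nb g [x0, x1, x2, x3] [y0, y2, y3, y4] := by
  rfl

theorem e45_6 (g : α → α → Bool) (x0 x1 x2 x3 y0 y1 y2 y3 y4 : α) :
    f45_6.map (ev (nb g [x0, x1, x2, x3]
      [y0, y1, y2, y3, y4])) =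
      nb g [x0, x1, x2, x3] [y0, y1, y3, y4] := by
  rfl

theorem e45_7 (g : α → α → Bool) (x0 x1 x2 x3 y0 y1 y2 y3 y4 : α) :
    f45_7.map (ev (nb g [x0, x1, x2, x3]
      [y0, y1, y2, y3, y4])) =
      nb g [x0, x1, x2, x3] [y0, y1, y2, y4] := by
  rfl

theorem e45_8 (g : α → α → Bool) (x0 x1 x2 x3 y0 y1 y2 y3 y4 : α) :
    f45_8.map (ev (nb g [x0, x1, x2, x3]
      [y0, y1, y2, y3, y4])) =
      nb g [x0, x1, x2, x3] [y0, y1, y2, y3] := by
  rfl

theorem esw (g : α → α → Bool) (hg : ∀ u v, g u v = g v u) (x0 x1 x2 x3 y0 y1 y2 y3 : α) :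
    fsw.map (ev (nb g [x0, x1, x2, x3] [y0, y1, y2, y3])) =
      nb g [y0, y1, y2, y3] [x0, x1, x2, x3] := by
  simp only [nb, nbX, prY, List.map_cons, List.map_nil, List.cons_append, List.nil_append,
    zc_swap g hg x0 y0]
  rfl

/-- the rule for eight points with colour classes `X`, `Y` -/
def tf8 (g : α → α → Bool) : List α → List α → Bool
  | [], [_, _, _, _, _, _, _, _] => true
  | [_, _, _, _, _, _, _, _], [] => true
  | [x0, x1], [y0, y1, y2, y3, y4, y5] => tb T26 (nb g [x0, x1] [y0, y1, y2, y3, y4, y5])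
  | [x0, x1, x2], [y0, y1, y2, y3, y4] => tb T35 (nb g [x0, x1, x2] [y0, y1, y2, y3, y4])
  | [x0, x1, x2, x3], [y0, y1, y2, y3] => tb T44 (nb g [x0, x1, x2, x3] [y0, y1, y2, y3])
  | [x0, x1, x2, x3, x4], [y0, y1, y2] => tb T35 (nb g [y0, y1, y2] [x0, x1, x2, x3, x4])
  | [x0, x1, x2, x3, x4, x5], [y0, y1] => tb T26 (nb g [y0, y1] [x0, x1, x2, x3, x4, x5])
  | _, _ => false

theorem tf8_len (g : α → α → Bool) (X Y : List α) (h : tf8 g X Y = true) :
    X.length + Y.length = 8 := by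
  unfold tf8 at h
  split at h <;> first | rfl | (exact absurd h (by simp))

theorem tf8_swap (g : α → α → Bool) (hg : ∀ u v, g u v = g v u) (X Y : List α)
    (h : tf8 g X Y = true) : tf8 g Y X = true := by
  have hl := tf8_len g X Y h
  unfold tf8 at h
  split at h
  · rfl
  · rfl
  · exact h
  · exact h
  · rename_i x0 x1 x2 x3 y0 y1 y2 y3
    show tb T44 (nb g [y0, y1, y2, y3] [x0, x1, x2, x3]) = true
    rw [← esw g hg, tb44_swap _ rfl]
    exact h
  · exact h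
  · exact h
  · exact absurd h (by simp)

theorem tf8_cover_le (g : α → α → Bool) (hg : ∀ u v, g u v = g v u) (X Y : List α)
    (h : X.length + Y.length = 9) (h4 : X.length ≤ 4) :
    ∃ X' Y' : List α, X'.Sublist X ∧ Y'.Sublist Y ∧ tf8 g X' Y' = true := by
  have hX : X.length = 0 ∨ X.length = 1 ∨ X.length = 2 ∨ X.length = 3 ∨ X.length = 4 := by omega
  rcases hX with hX | hX | hX | hX | hX
  · have hY : Y.length = 9 := by omega
    match X, hX, Y, hY with
    | [], _, [y0, y1, y2, y3, y4, y5, y6, y7, y8], _ =>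
      exact ⟨[], [y0, y1, y2, y3, y4, y5, y6, y7, y8].eraseIdx 8, List.Sublist.refl _,
        List.eraseIdx_sublist _ _, rfl⟩
  · have hY : Y.length = 8 := by omega
    match X, hX, Y, hY with
    | [x0], _, [y0, y1, y2, y3, y4, y5, y6, y7], _ =>
      exact ⟨[x0].eraseIdx 0, [y0, y1, y2, y3, y4, y5, y6, y7], List.eraseIdx_sublist _ _,
        List.Sublist.refl _, rfl⟩
  · have hY : Y.length = 7 := by omega
    match X, hX, Y, hY with
    | [x0, x1], _, [y0, y1, y2, y3, y4, y5, y6], _ =>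
      rcases c27 (nb g [x0, x1] [y0, y1, y2, y3, y4, y5, y6]) rfl with
        h | h | h | h | h | h | h
      · rw [e27_0 g hg x0 x1 y0 y1 y2 y3 y4 y5 y6] at h
        exact ⟨[x0, x1], [y0, y1, y2, y3, y4, y5, y6].eraseIdx 0, List.Sublist.refl _,
          List.eraseIdx_sublist _ _, h⟩
      · rw [e27_1 g x0 x1 y0 y1 y2 y3 y4 y5 y6] at h
        exact ⟨[x0, x1], [y0, y1, y2, y3, y4, y5, y6].eraseIdx 1, List.Sublist.refl _,
          List.eraseIdx_sublist _ _, h⟩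
      · rw [e27_2 g x0 x1 y0 y1 y2 y3 y4 y5 y6] at h
        exact ⟨[x0, x1], [y0, y1, y2, y3, y4, y5, y6].eraseIdx 2, List.Sublist.refl _,
          List.eraseIdx_sublist _ _, h⟩
      · rw [e27_3 g x0 x1 y0 y1 y2 y3 y4 y5 y6] at h
        exact ⟨[x0, x1], [y0, y1, y2, y3, y4, y5, y6].eraseIdx 3, List.Sublist.refl _,
          List.eraseIdx_sublist _ _, h⟩
      · rw [e27_4 g x0 x1 y0 y1 y2 y3 y4 y5 y6] at h
        exact ⟨[x0, x1], [y0, y1, y2, y3, y4, y5, y6].eraseIdx 4, List.Sublist.refl _,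
          List.eraseIdx_sublist _ _, h⟩
      · rw [e27_5 g x0 x1 y0 y1 y2 y3 y4 y5 y6] at h
        exact ⟨[x0, x1], [y0, y1, y2, y3, y4, y5, y6].eraseIdx 5, List.Sublist.refl _,
          List.eraseIdx_sublist _ _, h⟩
      · rw [e27_6 g x0 x1 y0 y1 y2 y3 y4 y5 y6] at h
        exact ⟨[x0, x1], [y0, y1, y2, y3, y4, y5, y6].eraseIdx 6, List.Sublist.refl _,
          List.eraseIdx_sublist _ _, h⟩
  · have hY : Y.length = 6 := by omega
    match X, hX, Y, hY with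
    | [x0, x1, x2], _, [y0, y1, y2, y3, y4, y5], _ =>
      rcases c36 (nb g [x0, x1, x2] [y0, y1, y2, y3, y4, y5]) rfl with
        h | h | h | h | h | h | h | h | h
      · rw [e36_0 g hg x0 x1 x2 y0 y1 y2 y3 y4 y5] at h
        exact ⟨[x0, x1, x2].eraseIdx 0, [y0, y1, y2, y3, y4, y5], List.eraseIdx_sublist _ _,
          List.Sublist.refl _, h⟩
      · rw [e36_1 g x0 x1 x2 y0 y1 y2 y3 y4 y5] at h
        exact ⟨[x0, x1, x2].eraseIdx 1, [y0, y1, y2, y3, y4, y5], List.eraseIdx_sublist _ _,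
          List.Sublist.refl _, h⟩
      · rw [e36_2 g x0 x1 x2 y0 y1 y2 y3 y4 y5] at h
        exact ⟨[x0, x1, x2].eraseIdx 2, [y0, y1, y2, y3, y4, y5], List.eraseIdx_sublist _ _,
          List.Sublist.refl _, h⟩
      · rw [e36_3 g hg x0 x1 x2 y0 y1 y2 y3 y4 y5] at h
        exact ⟨[x0, x1, x2], [y0, y1, y2, y3, y4, y5].eraseIdx 0, List.Sublist.refl _,
          List.eraseIdx_sublist _ _, h⟩
      · rw [e36_4 g x0 x1 x2 y0 y1 y2 y3 y4 y5] at h
        exact ⟨[x0, x1, x2], [y0, y1, y2, y3, y4, y5].eraseIdx 1, List.Sublist.refl _,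
          List.eraseIdx_sublist _ _, h⟩
      · rw [e36_5 g x0 x1 x2 y0 y1 y2 y3 y4 y5] at h
        exact ⟨[x0, x1, x2], [y0, y1, y2, y3, y4, y5].eraseIdx 2, List.Sublist.refl _,
          List.eraseIdx_sublist _ _, h⟩
      · rw [e36_6 g x0 x1 x2 y0 y1 y2 y3 y4 y5] at h
        exact ⟨[x0, x1, x2], [y0, y1, y2, y3, y4, y5].eraseIdx 3, List.Sublist.refl _,
          List.eraseIdx_sublist _ _, h⟩
      · rw [e36_7 g x0 x1 x2 y0 y1 y2 y3 y4 y5] at h
        exact ⟨[x0, x1, x2], [y0, y1, y2, y3, y4, y5].eraseIdx 4, List.Sublist.refl _,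
          List.eraseIdx_sublist _ _, h⟩
      · rw [e36_8 g x0 x1 x2 y0 y1 y2 y3 y4 y5] at h
        exact ⟨[x0, x1, x2], [y0, y1, y2, y3, y4, y5].eraseIdx 5, List.Sublist.refl _,
          List.eraseIdx_sublist _ _, h⟩
  · have hY : Y.length = 5 := by omega
    match X, hX, Y, hY with
    | [x0, x1, x2, x3], _, [y0, y1, y2, y3, y4], _ =>
      rcases c45 (nb g [x0, x1, x2, x3] [y0, y1, y2, y3, y4]) rfl with
        h | h | h | h | h | h | h | h | h
      · rw [e45_0 g hg x0 x1 x2 x3 y0 y1 y2 y3 y4] at h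
        exact ⟨[x0, x1, x2, x3].eraseIdx 0, [y0, y1, y2, y3, y4], List.eraseIdx_sublist _ _,
          List.Sublist.refl _, h⟩
      · rw [e45_1 g x0 x1 x2 x3 y0 y1 y2 y3 y4] at h
        exact ⟨[x0, x1, x2, x3].eraseIdx 1, [y0, y1, y2, y3, y4], List.eraseIdx_sublist _ _,
          List.Sublist.refl _, h⟩
      · rw [e45_2 g x0 x1 x2 x3 y0 y1 y2 y3 y4] at h
        exact ⟨[x0, x1, x2, x3].eraseIdx 2, [y0, y1, y2, y3, y4], List.eraseIdx_sublist _ _,
          List.Sublist.refl _, h⟩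
      · rw [e45_3 g x0 x1 x2 x3 y0 y1 y2 y3 y4] at h
        exact ⟨[x0, x1, x2, x3].eraseIdx 3, [y0, y1, y2, y3, y4], List.eraseIdx_sublist _ _,
          List.Sublist.refl _, h⟩
      · rw [e45_4 g hg x0 x1 x2 x3 y0 y1 y2 y3 y4] at h
        exact ⟨[x0, x1, x2, x3], [y0, y1, y2, y3, y4].eraseIdx 0, List.Sublist.refl _,
          List.eraseIdx_sublist _ _, h⟩
      · rw [e45_5 g x0 x1 x2 x3 y0 y1 y2 y3 y4] at h
        exact ⟨[x0, x1, x2, x3], [y0, y1, y2, y3, y4].eraseIdx 1, List.Sublist.refl _,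
          List.eraseIdx_sublist _ _, h⟩
      · rw [e45_6 g x0 x1 x2 x3 y0 y1 y2 y3 y4] at h
        exact ⟨[x0, x1, x2, x3], [y0, y1, y2, y3, y4].eraseIdx 2, List.Sublist.refl _,
          List.eraseIdx_sublist _ _, h⟩
      · rw [e45_7 g x0 x1 x2 x3 y0 y1 y2 y3 y4] at h
        exact ⟨[x0, x1, x2, x3], [y0, y1, y2, y3, y4].eraseIdx 3, List.Sublist.refl _,
          List.eraseIdx_sublist _ _, h⟩
      · rw [e45_8 g x0 x1 x2 x3 y0 y1 y2 y3 y4] at h
        exact ⟨[x0, x1, x2, x3], [y0, y1, y2, y3, y4].eraseIdx 4, List.Sublist.refl _,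
          List.eraseIdx_sublist _ _, h⟩

theorem tf8_cover (g : α → α → Bool) (hg : ∀ u v, g u v = g v u) (X Y : List α)
    (h : X.length + Y.length = 9) :
    ∃ X' Y' : List α, X'.Sublist X ∧ Y'.Sublist Y ∧ tf8 g X' Y' = true := by
  by_cases h4 : X.length ≤ 4
  · exact tf8_cover_le g hg X Y h h4
  · obtain ⟨Y', X', h1, h2, h3⟩ := tf8_cover_le g hg Y X (by omega) (by omega)
    exact ⟨X', Y', h2, h1, tf8_swap g hg _ _ h3⟩

end Run7.h125.TU
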